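import Mathlib
import Pool.Agent.Lib.Sieve.Covering
import Pool.Agent.Lib.Sieve.SingularAverage

/-!
# Covering an open interval by residue classes which avoid both end points: combinatorial part
-/

open Finset Filter

namespace Pool.Agent.Lib.MP_45349e_nt

open Pool.Agent.Lib.Sieve

/-- the class of `c` modulo `r` avoids `0` and `D` -/
def Ok (D r c : ℕ) : Prop := ¬ c ≡ 0 [MOD r] ∧ ¬ c ≡ D [MOD r]

theorem exists_ok (D r : ℕ) (hr : 3 ≤ r) : ∃ c, Ok D r c := by
  by_cases h : 1 ≡ D [MOD r]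
  · refine ⟨2, ?_, ?_⟩
    · intro h2
      have := Nat.le_of_dvd (by norm_num) (Nat.modEq_zero_iff_dvd.mp h2)
      omega
    · intro h2
      have h3 : 1 ≡ 2 [MOD r] := h.trans h2.symm
      have h4 := (Nat.modEq_iff_dvd' (by norm_num)).mp h3
      have := Nat.le_of_dvd (by norm_num) h4
      omega
  · refine ⟨1, ?_, h⟩
    intro h2
    have := Nat.le_of_dvd (by norm_num) (Nat.modEq_zero_iff_dvd.mp h2)
    omega

theorem Ok.congr {D r a b : ℕ} (h : a ≡ b [MOD r]) (ha : Ok D r a) : Ok D r b :=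
  ⟨fun h2 => ha.1 (h.trans h2), fun h2 => ha.2 (h.trans h2)⟩

open Classical in
/-- the saving at `t` from a prime `r` -/
noncomputable def kap (D r t : ℕ) : ℝ := if Ok D r t then 1 / (r : ℝ) else 0

theorem kap_nonneg (D r t : ℕ) : 0 ≤ kap D r t := by
  unfold kap; split_ifs <;> positivity

theorem kap_le_one (D r t : ℕ) (hr : 1 ≤ r) : kap D r t ≤ 1 := by
  unfold kap
  have : (1 : ℝ) ≤ r := by exact_mod_cast hr
  split_ifs
  · rw [div_le_one (by linarith)]; exact this
  · exact zero_le_one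

theorem exists_class_weighted (R : Finset ℕ) (W : ℕ → ℝ) (hW : ∀ t, 0 ≤ W t) (D r : ℕ)
    (hr : 3 ≤ r) :
    ∃ c, Ok D r c ∧ ∑ t ∈ R.filter (fun t => ¬ t ≡ c [MOD r]), W t ≤
      ∑ t ∈ R, W t * (1 - kap D r t) := by
  classical
  set Al := (Finset.range r).filter (fun c => Ok D r c) with hAl
  have hr0 : (0 : ℝ) < r := by exact_mod_cast (by omega : 0 < r)
  have hne : Al.Nonempty := by
    obtain ⟨c, hc⟩ := exists_ok D r hr
    refine ⟨c % r, ?_⟩
    rw [hAl, Finset.mem_filter, Finset.mem_range]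
    exact ⟨Nat.mod_lt _ (by omega), hc.congr (Nat.mod_modEq c r).symm⟩
  have hcard : (Al.card : ℝ) ≤ r := by
    have : Al.card ≤ r := (Finset.card_filter_le _ _).trans (by simp)
    exact_mod_cast this
  set Q : ℝ := ∑ t ∈ R, W t * kap D r t with hQ
  have hQ0 : 0 ≤ Q := Finset.sum_nonneg fun t _ => mul_nonneg (hW t) (kap_nonneg D r t)
  have hsum : ∑ c ∈ Al, ∑ t ∈ R.filter (fun t => t ≡ c [MOD r]), W t = r * Q := by
    simp_rw [Finset.sum_filter]
    rw [Finset.sum_comm, hQ, Finset.mul_sum]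
    refine Finset.sum_congr rfl fun t _ => ?_
    unfold kap
    by_cases hok : Ok D r t
    · rw [if_pos hok]
      rw [Finset.sum_eq_single (t % r)]
      · rw [if_pos (Nat.mod_modEq t r).symm]
        field_simp
      · intro c hc hne
        rw [if_neg]
        intro h
        apply hne
        have hc' := Finset.mem_range.mp (Finset.mem_filter.mp hc).1
        unfold Nat.ModEq at h
        rw [Nat.mod_eq_of_lt hc'] at h
        exact h.symm
      · intro h
        exfalso
        apply h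
        rw [hAl, Finset.mem_filter, Finset.mem_range]
        exact ⟨Nat.mod_lt _ (by omega), hok.congr (Nat.mod_modEq t r).symm⟩
    · rw [if_neg hok]
      rw [Finset.sum_eq_zero]
      · ring
      · intro c hc
        rw [if_neg]
        intro h
        exact hok ((Finset.mem_filter.mp hc).2.congr h.symm)
  have havg : ∑ c ∈ Al, Q ≤ ∑ c ∈ Al, ∑ t ∈ R.filter (fun t => t ≡ c [MOD r]), W t := by
    rw [hsum, Finset.sum_const, nsmul_eq_mul]
    exact mul_le_mul_of_nonneg_right hcard hQ0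
  obtain ⟨c, hc, hcQ⟩ := Finset.exists_le_of_sum_le hne havg
  refine ⟨c, (Finset.mem_filter.mp hc).2, ?_⟩
  have hsplit := Finset.sum_filter_add_sum_filter_not R (fun t => t ≡ c [MOD r]) W
  have h1 : ∑ t ∈ R, W t * (1 - kap D r t) = ∑ t ∈ R, W t - Q := by
    rw [hQ, ← Finset.sum_sub_distrib]
    exact Finset.sum_congr rfl fun t _ => by ring
  rw [h1]
  linarith

theorem greedy_weighted (A : Finset ℕ) (D : ℕ) (S : Finset ℕ) (hS : ∀ r ∈ S, 3 ≤ r) :
    ∀ W : ℕ → ℝ, (∀ t, 0 ≤ W t) → ∃ c : ℕ → ℕ, (∀ r ∈ S, Ok D r (c r)) ∧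
      ∑ t ∈ A.filter (fun t => ∀ r ∈ S, ¬ t ≡ c r [MOD r]), W t ≤
        ∑ t ∈ A, W t * ∏ r ∈ S, (1 - kap D r t) := by
  classical
  induction S using Finset.induction_on with
  | empty =>
    intro W hW
    refine ⟨fun _ => 0, by simp, ?_⟩
    simp
  | insert r S hrS ih =>
    intro W hW
    have hr3 : 3 ≤ r := hS r (Finset.mem_insert_self _ _)
    have hk1 : ∀ t, 0 ≤ 1 - kap D r t := fun t => by
      have := kap_le_one D r t (by omega)
      linarith
    obtain ⟨c, hcok, hc⟩ := ih (fun q hq => hS q (Finset.mem_insert_of_mem hq))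
      (fun t => W t * (1 - kap D r t)) (fun t => mul_nonneg (hW t) (hk1 t))
    obtain ⟨c0, hc0ok, hc0⟩ := exists_class_weighted
      (A.filter (fun t => ∀ q ∈ S, ¬ t ≡ c q [MOD q])) W hW D r hr3
    refine ⟨fun q => if q = r then c0 else c q, ?_, ?_⟩
    · intro q hq
      by_cases hqr : q = r
      · simp only [hqr, if_true]; exact hc0ok
      · simp only [if_neg hqr]
        exact hcok q (Finset.mem_of_mem_insert_of_ne hq hqr)
    · have heq : A.filter (fun a => ∀ q ∈ insert r S, ¬ a ≡ (if q = r then c0 else c q) [MOD q])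
        = (A.filter (fun a => ∀ q ∈ S, ¬ a ≡ c q [MOD q])).filter (fun a => ¬ a ≡ c0 [MOD r]) := by
        ext a
        simp only [Finset.mem_filter, Finset.mem_insert]
        constructor
        · rintro ⟨ha, h⟩
          refine ⟨⟨ha, fun q hq => ?_⟩, ?_⟩
          · have := h q (Or.inr hq)
            have hne : q ≠ r := by rintro rfl; exact hrS hq
            rwa [if_neg hne] at this
          · have := h r (Or.inl rfl)
            rwa [if_pos rfl] at this
        · rintro ⟨⟨ha, h⟩, h'⟩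
          refine ⟨ha, fun q hq => ?_⟩
          rcases hq with rfl | hq
          · rw [if_pos rfl]; exact h'
          · have hne : q ≠ r := by rintro rfl; exact hrS hq
            rw [if_neg hne]; exact h q hq
      rw [heq]
      refine hc0.trans (hc.trans (le_of_eq ?_))
      refine Finset.sum_congr rfl fun t _ => ?_
      rw [Finset.prod_insert hrS]
      ring

/-! ### The weight of a point -/

theorem prod_kap_le (D w t : ℕ) (ht : 0 < t) (htD : t < D) :
    ∏ r ∈ (Finset.Icc 3 w).filter Nat.Prime, (1 - kap D r t) ≤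
      (∏ r ∈ (Finset.Icc 3 w).filter Nat.Prime, (1 - 1 / (r : ℝ))) *
        (((t : ℝ) / Nat.totient t) * (((D - t : ℕ) : ℝ) / Nat.totient (D - t))) := by
  classical
  set S := (Finset.Icc 3 w).filter Nat.Prime with hS
  have hSp : ∀ r ∈ S, r.Prime := fun r hr => (Finset.mem_filter.mp hr).2
  have hpos : ∀ r : ℕ, r.Prime → 0 < 1 - 1 / (r : ℝ) := by
    intro r hr
    have : (2 : ℝ) ≤ r := by exact_mod_cast hr.two_le
    rw [sub_pos, div_lt_one (by linarith)]
    linarith
  have hinv1 : ∀ r : ℕ, r.Prime → 1 ≤ (1 - 1 / (r : ℝ))⁻¹ := by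
    intro r hr
    rw [one_le_inv₀ (hpos r hr)]
    have : 0 ≤ 1 / (r : ℝ) := by positivity
    linarith
  set B := S.filter (fun r => ¬ Ok D r t) with hB
  have h1 : ∏ r ∈ S, (1 - kap D r t) =
      (∏ r ∈ S, (1 - 1 / (r : ℝ))) * ∏ r ∈ B, (1 - 1 / (r : ℝ))⁻¹ := by
    rw [hB, Finset.prod_filter (s := S) (p := fun r => ¬ Ok D r t), ← Finset.prod_mul_distrib]
    refine Finset.prod_congr rfl fun r hr => ?_
    unfold kap
    by_cases hok : Ok D r t
    · rw [if_pos hok, if_neg (not_not.mpr hok), mul_one]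
    · rw [if_neg hok, if_pos hok, mul_inv_cancel₀ (hpos r (hSp r hr)).ne', sub_zero]
  have hBsub : B ⊆ t.primeFactors ∪ (D - t).primeFactors := by
    intro r hr
    have hr' := Finset.mem_filter.mp hr
    have hrp := hSp r hr'.1
    have h2 := hr'.2
    unfold Ok at h2
    rw [not_and_or, not_not, not_not] at h2
    rw [Finset.mem_union, Nat.mem_primeFactors, Nat.mem_primeFactors]
    rcases h2 with h2 | h2
    · left
      exact ⟨hrp, Nat.modEq_zero_iff_dvd.mp h2, by omega⟩
    · right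
      exact ⟨hrp, (Nat.modEq_iff_dvd' htD.le).mp h2, by omega⟩
  have h2 : ∏ r ∈ B, (1 - 1 / (r : ℝ))⁻¹ ≤
      ((t : ℝ) / Nat.totient t) * (((D - t : ℕ) : ℝ) / Nat.totient (D - t)) := by
    rw [div_totient_eq_prod_inv t (by omega), div_totient_eq_prod_inv (D - t) (by omega)]
    have hpf : ∀ m : ℕ, ∀ r ∈ m.primeFactors, 1 ≤ (1 - 1 / (r : ℝ))⁻¹ := fun m r hr =>
      hinv1 r (Nat.prime_of_mem_primeFactors hr)
    have h3 : ∏ r ∈ B, (1 - 1 / (r : ℝ))⁻¹ ≤
        (∏ r ∈ B.filter (fun r => r ∈ t.primeFactors), (1 - 1 / (r : ℝ))⁻¹) *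
        ∏ r ∈ B.filter (fun r => ¬ r ∈ t.primeFactors), (1 - 1 / (r : ℝ))⁻¹ := by
      rw [Finset.prod_filter_mul_prod_filter_not]
    refine h3.trans ?_
    have hmono : ∀ (T : Finset ℕ) (m : ℕ), T ⊆ m.primeFactors →
        ∏ r ∈ T, (1 - 1 / (r : ℝ))⁻¹ ≤ ∏ r ∈ m.primeFactors, (1 - 1 / (r : ℝ))⁻¹ := by
      intro T m hT
      have h6 : ∏ r ∈ m.primeFactors, (1 - 1 / (r : ℝ))⁻¹ =
          (∏ r ∈ m.primeFactors \ T, (1 - 1 / (r : ℝ))⁻¹) * ∏ r ∈ T, (1 - 1 / (r : ℝ))⁻¹ :=
        (Finset.prod_sdiff hT).symm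
      rw [h6]
      have h7 : 1 ≤ ∏ r ∈ m.primeFactors \ T, (1 - 1 / (r : ℝ))⁻¹ := by
        calc (1 : ℝ) = ∏ r ∈ m.primeFactors \ T, (1 : ℝ) := by rw [Finset.prod_const_one]
          _ ≤ _ := Finset.prod_le_prod (fun _ _ => zero_le_one) (fun r hr =>
              hpf m r (Finset.mem_sdiff.mp hr).1)
      have h8 : 0 ≤ ∏ r ∈ T, (1 - 1 / (r : ℝ))⁻¹ := by
        apply Finset.prod_nonneg
        intro r hr
        exact zero_le_one.trans (hpf m r (hT hr))
      nlinarith
    apply mul_le_mul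
    · apply hmono
      intro r hr
      exact (Finset.mem_filter.mp hr).2
    · apply hmono
      intro r hr
      have hr' := Finset.mem_filter.mp hr
      rcases Finset.mem_union.mp (hBsub hr'.1) with h | h
      · exact absurd h hr'.2
      · exact h
    · apply Finset.prod_nonneg
      intro r hr
      have := hSp r (Finset.mem_filter.mp (Finset.mem_filter.mp hr).1).1
      exact zero_le_one.trans (hinv1 r this)
    · apply Finset.prod_nonneg
      intro r hr
      exact zero_le_one.trans (hpf t r hr)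
  rw [h1]
  apply mul_le_mul_of_nonneg_left h2
  apply Finset.prod_nonneg
  intro r hr
  exact (hpos r (hSp r hr)).le

end Pool.Agent.Lib.MP_45349e_nt
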