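import Mathlib
import Pool.Agent.Lib.MP_45349e_nt.Choice

/-!
# Choice of the centre for the middle primes, and of one prime for each survivor
-/

open Finset Filter

namespace Pool.Agent.Lib.MP_45349e_nt

open Pool.Agent.Lib.Sieve

theorem card_class_le (Y r t : ℕ) (_hr : 0 < r) :
    ((Finset.Icc 1 Y).filter (fun b => t ≡ b [MOD r])).card ≤ Y / r + 1 := by
  have : ((Finset.Icc 1 Y).filter (fun b => t ≡ b [MOD r])).card ≤ (Finset.range (Y / r + 1)).card := by
    apply Finset.card_le_card_of_injOn (fun b => b / r)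
    · intro b hb
      have hb := Finset.mem_filter.mp (Finset.mem_coe.mp hb)
      have hb1 := Finset.mem_Icc.mp hb.1
      rw [Finset.mem_coe, Finset.mem_range]
      have := Nat.div_le_div_right (c := r) hb1.2
      show b / r < Y / r + 1
      omega
    · intro a ha b hb hab
      have ha := (Finset.mem_filter.mp (Finset.mem_coe.mp ha)).2
      have hb := (Finset.mem_filter.mp (Finset.mem_coe.mp hb)).2
      have h1 : a % r = b % r := ha.symm.trans hb
      have hab : a / r = b / r := hab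
      rw [← Nat.div_add_mod a r, ← Nat.div_add_mod b r, h1, hab]
  simpa using this

theorem card_primeFactors_le (n : ℕ) (hn : n ≠ 0) : n.primeFactors.card ≤ Nat.log 2 n := by
  apply (Nat.le_log_iff_pow_le (by norm_num) hn).mpr
  calc 2 ^ n.primeFactors.card = ∏ p ∈ n.primeFactors, 2 := by rw [Finset.prod_const]
    _ ≤ ∏ p ∈ n.primeFactors, p :=
        Finset.prod_le_prod' fun p hp => (Nat.prime_of_mem_primeFactors hp).two_le
    _ ≤ n := Nat.le_of_dvd (Nat.pos_of_ne_zero hn) (Nat.prod_primeFactors_dvd n)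

/-- the centres `b` for which `t` is not covered by the middle primes -/
noncomputable def badC (Y w y D t : ℕ) : Finset ℕ := by
  classical
  exact (Finset.Icc 1 Y).filter (fun b => ∀ r : ℕ, r.Prime → w < r → r ≤ y → t ≡ b [MOD r] → ¬ Ok D r b)

theorem card_badC_le (Y w y D t : ℕ) (hw : 1 ≤ w) (hwY : w ≤ Y) (ht : 0 < t) (htD : t < D)
    (hDY : D ≤ Y) :
    ((badC Y w y D t).card : ℝ) ≤ 2 * (gapFree Y w y).card + 1 +
      (2 * Nat.log 2 Y) * (2 * Y / w) := by
  classical
  set F := (t.primeFactors ∪ (D - t).primeFactors).filter (fun r => w < r) with hF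
  have hsub : badC Y w y D t ⊆
      (insert t ((Finset.Icc 1 Y).filter (fun b : ℕ => ((t : ℤ) - (b : ℤ)).natAbs ∈ gapFree Y w y))) ∪
        F.biUnion (fun r => (Finset.Icc 1 Y).filter (fun b => t ≡ b [MOD r])) := by
    intro b hb
    unfold badC at hb
    obtain ⟨hbI, hb⟩ := Finset.mem_filter.mp hb
    have hbI' := Finset.mem_Icc.mp hbI
    rw [Finset.mem_union, Finset.mem_insert, Finset.mem_filter, Finset.mem_biUnion]
    by_cases hbt : b = t
    · exact Or.inl (Or.inl hbt)
    by_cases hg : ((t : ℤ) - (b : ℤ)).natAbs ∈ gapFree Y w y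
    · exact Or.inl (Or.inr ⟨hbI, hg⟩)
    right
    have h5 : ¬ ∀ p ∈ (((t : ℤ) - (b : ℤ)).natAbs).primeFactors, p ≤ w ∨ y < p := by
      intro h
      exact hg (Finset.mem_filter.mpr ⟨Finset.mem_Icc.mpr ⟨by omega, by omega⟩, h⟩)
    push Not at h5
    obtain ⟨r, hr, hwr, hry⟩ := h5
    have hrp := Nat.prime_of_mem_primeFactors hr
    have hrd : r ∣ ((t : ℤ) - (b : ℤ)).natAbs := Nat.dvd_of_mem_primeFactors hr
    have h7 : (r : ℤ) ∣ (t : ℤ) - (b : ℤ) := Int.natCast_dvd.mpr hrd
    have h8 : b ≡ t [MOD r] := Nat.modEq_iff_dvd.mpr h7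
    have h9 := hb r hrp hwr hry h8.symm
    refine ⟨r, ?_, Finset.mem_filter.mpr ⟨hbI, h8.symm⟩⟩
    unfold Ok at h9
    rw [not_and_or, not_not, not_not] at h9
    rw [hF, Finset.mem_filter, Finset.mem_union, Nat.mem_primeFactors, Nat.mem_primeFactors]
    refine ⟨?_, hwr⟩
    rcases h9 with h9 | h9
    · left
      exact ⟨hrp, Nat.modEq_zero_iff_dvd.mp (h8.symm.trans h9), by omega⟩
    · right
      exact ⟨hrp, (Nat.modEq_iff_dvd' htD.le).mp (h8.symm.trans h9), by omega⟩
  have hF1 : F.card ≤ 2 * Nat.log 2 Y := by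
    calc F.card ≤ (t.primeFactors ∪ (D - t).primeFactors).card := Finset.card_filter_le _ _
      _ ≤ t.primeFactors.card + (D - t).primeFactors.card := Finset.card_union_le _ _
      _ ≤ Nat.log 2 t + Nat.log 2 (D - t) :=
          Nat.add_le_add (card_primeFactors_le t (by omega)) (card_primeFactors_le _ (by omega))
      _ ≤ Nat.log 2 Y + Nat.log 2 Y :=
          Nat.add_le_add (Nat.log_mono_right (by omega)) (Nat.log_mono_right (by omega))
      _ = 2 * Nat.log 2 Y := by ring
  have h1 : (badC Y w y D t).card ≤ (2 * (gapFree Y w y).card + 1) + ∑ r ∈ F, (Y / r + 1) := by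
    refine (Finset.card_le_card hsub).trans ((Finset.card_union_le _ _).trans ?_)
    apply Nat.add_le_add
    · refine (Finset.card_insert_le _ _).trans ?_
      exact Nat.add_le_add_right (card_dist_le _ _ _) 1
    · refine Finset.card_biUnion_le.trans ?_
      refine Finset.sum_le_sum fun r hr => ?_
      have hr' := (Finset.mem_filter.mp hr).2
      exact card_class_le Y r t (by omega)
  have hw0 : (0 : ℝ) < w := by exact_mod_cast hw
  have hY0 : (0 : ℝ) ≤ Y := Nat.cast_nonneg _
  have hYw : (1 : ℝ) ≤ Y / w := by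
    rw [le_div_iff₀ hw0, one_mul]; exact_mod_cast hwY
  have h2 : ∀ r ∈ F, ((Y / r + 1 : ℕ) : ℝ) ≤ 2 * Y / w := by
    intro r hr
    have hr' := (Finset.mem_filter.mp hr).2
    have h3 : ((Y / r : ℕ) : ℝ) ≤ (Y : ℝ) / r := Nat.cast_div_le
    have h4 : (Y : ℝ) / r ≤ Y / w := by
      apply div_le_div_of_nonneg_left hY0 hw0
      exact_mod_cast hr'.le
    push_cast
    have : 2 * (Y : ℝ) / w = Y / w + Y / w := by ring
    linarith
  have h3 : ((∑ r ∈ F, (Y / r + 1) : ℕ) : ℝ) ≤ (2 * Nat.log 2 Y) * (2 * Y / w) := by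
    push_cast
    calc ∑ r ∈ F, (((Y / r : ℕ) : ℝ) + 1) ≤ ∑ r ∈ F, (2 * Y / w : ℝ) := by
          refine Finset.sum_le_sum fun r hr => ?_
          have := h2 r hr
          push_cast at this
          exact this
      _ = F.card * (2 * Y / w) := by rw [Finset.sum_const, nsmul_eq_mul]
      _ ≤ (2 * Nat.log 2 Y) * (2 * Y / w) := by
          have : (F.card : ℝ) ≤ 2 * Nat.log 2 Y := by exact_mod_cast hF1
          gcongr
  have h4 : ((badC Y w y D t).card : ℝ) ≤ ((2 * (gapFree Y w y).card + 1 : ℕ) : ℝ) +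
      ((∑ r ∈ F, (Y / r + 1) : ℕ) : ℝ) := by exact_mod_cast h1
  push_cast at h4 h3
  linarith

/-- choice of the centre -/
theorem exists_centre (Y w y D : ℕ) (hY : 1 ≤ Y) (A : Finset ℕ) (ω : ℕ → ℝ) (hω : ∀ t, 0 ≤ ω t)
    (B : ℝ) (hB : ∀ t ∈ A, ((badC Y w y D t).card : ℝ) ≤ B) :
    ∃ b ∈ Finset.Icc 1 Y, ∑ t ∈ A.filter (fun t => b ∈ badC Y w y D t), ω t ≤
      B / Y * ∑ t ∈ A, ω t := by
  classical
  have hne : (Finset.Icc 1 Y).Nonempty := ⟨1, Finset.mem_Icc.mpr ⟨le_rfl, hY⟩⟩
  have hY0 : (0 : ℝ) < Y := by exact_mod_cast hY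
  apply Finset.exists_le_of_sum_le hne
  rw [Finset.sum_const, Nat.card_Icc, nsmul_eq_mul, Nat.add_sub_cancel]
  have h1 : ∑ b ∈ Finset.Icc 1 Y, ∑ t ∈ A.filter (fun t => b ∈ badC Y w y D t), ω t =
      ∑ t ∈ A, ((badC Y w y D t).card : ℝ) * ω t := by
    simp_rw [Finset.sum_filter]
    rw [Finset.sum_comm]
    refine Finset.sum_congr rfl fun t _ => ?_
    rw [← Finset.sum_filter, Finset.sum_const, nsmul_eq_mul]
    congr 2
    congr 1
    ext b
    rw [Finset.mem_filter]
    constructor
    · exact fun h => h.2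
    · intro h
      refine ⟨?_, h⟩
      unfold badC at h
      exact (Finset.mem_filter.mp h).1
  rw [h1]
  calc ∑ t ∈ A, ((badC Y w y D t).card : ℝ) * ω t ≤ ∑ t ∈ A, B * ω t := by
        refine Finset.sum_le_sum fun t ht => ?_
        exact mul_le_mul_of_nonneg_right (hB t ht) (hω t)
    _ = Y * (B / Y * ∑ t ∈ A, ω t) := by
        rw [← Finset.mul_sum]
        field_simp

/-! ### One prime for each survivor, avoiding few bad primes -/

theorem exists_assign (S : Finset ℕ) (bad : ℕ → Finset ℕ) (m : ℕ) (A : Finset ℕ)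
    (hbad : ∀ t ∈ A, (bad t ∩ S).card ≤ m) (hcard : A.card + m ≤ S.card) :
    ∃ f : ℕ → ℕ, (∀ t ∈ A, f t ∈ S ∧ f t ∉ bad t) ∧ Set.InjOn f A := by
  classical
  induction A using Finset.induction_on with
  | empty => exact ⟨fun _ => 0, by simp, by simp⟩
  | insert t A htA ih =>
    rw [Finset.card_insert_of_notMem htA] at hcard
    obtain ⟨f, hf, hinj⟩ := ih (fun s hs => hbad s (Finset.mem_insert_of_mem hs)) (by omega)
    have hlt : ((A.image f) ∪ (bad t ∩ S)).card < S.card := by
      calc ((A.image f) ∪ (bad t ∩ S)).card ≤ (A.image f).card + (bad t ∩ S).card :=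
            Finset.card_union_le _ _
        _ ≤ A.card + m := Nat.add_le_add Finset.card_image_le (hbad t (Finset.mem_insert_self _ _))
        _ < S.card := by omega
    obtain ⟨r, hrS, hr⟩ := Finset.exists_mem_notMem_of_card_lt_card hlt
    rw [Finset.mem_union, not_or] at hr
    refine ⟨fun s => if s = t then r else f s, ?_, ?_⟩
    · intro s hs
      by_cases hst : s = t
      · simp only [hst, if_true]
        exact ⟨hrS, fun h => hr.2 (Finset.mem_inter.mpr ⟨h, hrS⟩)⟩
      · simp only [if_neg hst]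
        exact hf s (Finset.mem_of_mem_insert_of_ne hs hst)
    · intro a ha b hb hab
      rw [Finset.coe_insert, Set.mem_insert_iff, Finset.mem_coe] at ha hb
      have hab : (if a = t then r else f a) = (if b = t then r else f b) := hab
      by_cases h1 : a = t
      · by_cases h2 : b = t
        · rw [h1, h2]
        · exfalso
          rw [if_pos h1, if_neg h2] at hab
          apply hr.1
          rw [Finset.mem_image]
          exact ⟨b, hb.resolve_left h2, hab.symm⟩
      · by_cases h2 : b = t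
        · exfalso
          rw [if_neg h1, if_pos h2] at hab
          apply hr.1
          rw [Finset.mem_image]
          exact ⟨a, ha.resolve_left h1, hab⟩
        · rw [if_neg h1, if_neg h2] at hab
          exact hinj (Finset.mem_coe.mpr (ha.resolve_left h1)) (Finset.mem_coe.mpr (hb.resolve_left h2)) hab

end Pool.Agent.Lib.MP_45349e_nt
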