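import Mathlib
import Pool.Agent.Lib.MP_45349e_nt.Centre
import Pool.Agent.Lib.MP_7b7e48_nt.SquareMean

/-!
# Covering an open interval by residue classes which avoid both end points: abstract form
-/

open Finset Filter

namespace Pool.Agent.Lib.MP_45349e_nt

open Pool.Agent.Lib.Sieve

theorem sum_weight_le (D : ℕ) :
    ∑ t ∈ Finset.Ioo 0 D, (((t : ℝ) / Nat.totient t) * (((D - t : ℕ) : ℝ) / Nat.totient (D - t))) ≤
      Real.exp 6 * D := by
  have h1 : ∀ t ∈ Finset.Ioo 0 D,
      (((t : ℝ) / Nat.totient t) * (((D - t : ℕ) : ℝ) / Nat.totient (D - t))) ≤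
      (1 / 2) * ((t : ℝ) / Nat.totient t) ^ 2 + (1 / 2) * (((D - t : ℕ) : ℝ) / Nat.totient (D - t)) ^ 2 := by
    intro t _
    nlinarith [sq_nonneg ((t : ℝ) / Nat.totient t - ((D - t : ℕ) : ℝ) / Nat.totient (D - t))]
  refine (Finset.sum_le_sum h1).trans ?_
  rw [Finset.sum_add_distrib, ← Finset.mul_sum, ← Finset.mul_sum]
  have h2 : ∑ t ∈ Finset.Ioo 0 D, (((D - t : ℕ) : ℝ) / Nat.totient (D - t)) ^ 2 =
      ∑ t ∈ Finset.Ioo 0 D, ((t : ℝ) / Nat.totient t) ^ 2 := by
    apply Finset.sum_bij' (fun t _ => D - t) (fun t _ => D - t)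
    · intro t ht
      have := Finset.mem_Ioo.mp ht
      rw [Finset.mem_Ioo]; omega
    · intro t ht
      have := Finset.mem_Ioo.mp ht
      rw [Finset.mem_Ioo]; omega
    · intro t ht
      have := Finset.mem_Ioo.mp ht
      show D - (D - t) = t
      omega
    · intro t ht
      have := Finset.mem_Ioo.mp ht
      show D - (D - t) = t
      omega
    · intro t _
      rfl
  have h3 : ∑ t ∈ Finset.Ioo 0 D, ((t : ℝ) / Nat.totient t) ^ 2 ≤ Real.exp 6 * D := by
    refine le_trans ?_ (Pool.Agent.Lib.MP_7b7e48_nt.sum_sq_div_totient_le D)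
    apply Finset.sum_le_sum_of_subset_of_nonneg
    · intro t ht
      have := Finset.mem_Ioo.mp ht
      rw [Finset.mem_Icc]; omega
    · intro _ _ _; positivity
  rw [h2]
  linarith

theorem large_primeFactors_card (y t : ℕ) (ht : t ≠ 0) (hty : t < y ^ 2) :
    (t.primeFactors.filter (fun r => y < r)).card ≤ 1 := by
  classical
  rw [Finset.card_le_one]
  intro a ha b hb
  by_contra hab
  have ha' := Finset.mem_filter.mp ha
  have hb' := Finset.mem_filter.mp hb
  have hap := Nat.prime_of_mem_primeFactors ha'.1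
  have hbp := Nat.prime_of_mem_primeFactors hb'.1
  have hcop : Nat.Coprime a b := (Nat.coprime_primes hap hbp).mpr hab
  have hdvd : a * b ∣ t := hcop.mul_dvd_of_dvd_of_dvd (Nat.dvd_of_mem_primeFactors ha'.1)
    (Nat.dvd_of_mem_primeFactors hb'.1)
  have := Nat.le_of_dvd (Nat.pos_of_ne_zero ht) hdvd
  have h1 := ha'.2
  have h2 := hb'.2
  nlinarith

/-- **Covering with both end points uncovered, abstract form.** -/
theorem covering_abstract' (z w y Y D : ℕ) (hw2 : 3 ≤ w) (hwy : w ≤ y) (hwY : w ≤ Y)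
    (hDY : D ≤ Y) (hDy : D < y ^ 2)
    (hcard : ((2 * ((gapFree Y w y).card : ℝ) + 1 + (2 * Nat.log 2 Y) * (2 * Y / w)) / Y) *
      ((∏ r ∈ (Finset.Icc 3 w).filter Nat.Prime, (1 - 1 / (r : ℝ))) * (Real.exp 6 * D)) + 2 ≤
        (((Finset.Ioc y z).filter Nat.Prime).card : ℝ)) :
    ∃ c : ℕ → ℕ, (∀ r : ℕ, 3 ≤ r → Ok D r (c r)) ∧
      ∀ t : ℕ, 0 < t → t < D → ∃ r : ℕ, r.Prime ∧ 3 ≤ r ∧ r ≤ z ∧ t ≡ c r [MOD r] := by
  classical
  set A := Finset.Ioo 0 D with hA
  set S1 := (Finset.Icc 3 w).filter Nat.Prime with hS1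
  set S3 := (Finset.Ioc y z).filter Nat.Prime with hS3
  set ω : ℕ → ℝ := fun t => ∏ r ∈ S1, (1 - kap D r t) with hωdef
  have hω0 : ∀ t, 0 ≤ ω t := by
    intro t
    apply Finset.prod_nonneg
    intro r hr
    have := kap_le_one D r t (Finset.mem_filter.mp hr).2.one_lt.le
    linarith
  have hY1 : 1 ≤ Y := by omega
  set B : ℝ := 2 * ((gapFree Y w y).card : ℝ) + 1 + (2 * Nat.log 2 Y) * (2 * Y / w) with hB
  obtain ⟨b, hbY, hb⟩ := exists_centre Y w y D hY1 A ω hω0 B (by
    intro t ht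
    have := Finset.mem_Ioo.mp ht
    exact card_badC_le Y w y D t (by omega) hwY this.1 this.2 hDY)
  set A1 := A.filter (fun t => b ∈ badC Y w y D t) with hA1
  obtain ⟨c1, hc1ok, hc1⟩ := greedy_weighted A1 D S1
    (fun r hr => (Finset.mem_Icc.mp (Finset.mem_filter.mp hr).1).1) (fun _ => 1)
    (fun _ => zero_le_one)
  set A2 := A1.filter (fun t => ∀ r ∈ S1, ¬ t ≡ c1 r [MOD r]) with hA2
  have hV0 : 0 ≤ ∏ r ∈ S1, (1 - 1 / (r : ℝ)) := by
    apply Finset.prod_nonneg
    intro r hr
    have : (1 : ℝ) ≤ r := by exact_mod_cast (Finset.mem_filter.mp hr).2.one_lt.le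
    rw [sub_nonneg, div_le_one (by linarith)]
    exact this
  have hsumω : ∑ t ∈ A, ω t ≤ (∏ r ∈ S1, (1 - 1 / (r : ℝ))) * (Real.exp 6 * D) := by
    calc ∑ t ∈ A, ω t ≤ ∑ t ∈ A, (∏ r ∈ S1, (1 - 1 / (r : ℝ))) *
        (((t : ℝ) / Nat.totient t) * (((D - t : ℕ) : ℝ) / Nat.totient (D - t))) := by
          refine Finset.sum_le_sum fun t ht => ?_
          have := Finset.mem_Ioo.mp ht
          exact prod_kap_le D w t this.1 this.2
      _ ≤ _ := by
          rw [← Finset.mul_sum]
          exact mul_le_mul_of_nonneg_left (sum_weight_le D) hV0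
  have hB0 : 0 ≤ B := by positivity
  have hA2card : A2.card + 2 ≤ S3.card := by
    have h1 : (A2.card : ℝ) ≤ B / Y * ((∏ r ∈ S1, (1 - 1 / (r : ℝ))) * (Real.exp 6 * D)) := by
      calc (A2.card : ℝ) = ∑ t ∈ A2, (1 : ℝ) := by simp
        _ ≤ ∑ t ∈ A1, (1 : ℝ) * ∏ r ∈ S1, (1 - kap D r t) := hc1
        _ = ∑ t ∈ A1, ω t := Finset.sum_congr rfl fun t _ => one_mul _
        _ ≤ B / Y * ∑ t ∈ A, ω t := hb
        _ ≤ _ := mul_le_mul_of_nonneg_left hsumω (by positivity)
    have h2 : (A2.card : ℝ) + 2 ≤ S3.card := by linarith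
    exact_mod_cast h2
  obtain ⟨f, hf, hinj⟩ := exists_assign S3 (fun t => t.primeFactors ∪ (D - t).primeFactors) 2 A2
    (by
      intro t ht
      have ht0 := Finset.mem_Ioo.mp (Finset.mem_filter.mp (Finset.mem_filter.mp ht).1).1
      have hsub : (t.primeFactors ∪ (D - t).primeFactors) ∩ S3 ⊆
          t.primeFactors.filter (fun r => y < r) ∪ (D - t).primeFactors.filter (fun r => y < r) := by
        intro r hr
        have hr' := Finset.mem_inter.mp hr
        have hry := (Finset.mem_Ioc.mp (Finset.mem_filter.mp hr'.2).1).1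
        rw [Finset.mem_union, Finset.mem_filter, Finset.mem_filter]
        rcases Finset.mem_union.mp hr'.1 with h | h
        · exact Or.inl ⟨h, hry⟩
        · exact Or.inr ⟨h, hry⟩
      refine (Finset.card_le_card hsub).trans ((Finset.card_union_le _ _).trans ?_)
      have h1 := large_primeFactors_card y t (by omega) (by omega)
      have h2 := large_primeFactors_card y (D - t) (by omega) (by omega)
      omega) hA2card
  have hdef : ∀ r : ℕ, ∃ c, 3 ≤ r → Ok D r c := by
    intro r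
    by_cases hr : 3 ≤ r
    · obtain ⟨c, hc⟩ := exists_ok D r hr
      exact ⟨c, fun _ => hc⟩
    · exact ⟨0, fun h => absurd h hr⟩
  choose d hd using hdef
  -- the inverse assignment
  have hg : ∀ r : ℕ, ∃ t : ℕ, (∃ s ∈ A2, f s = r) → (t ∈ A2 ∧ f t = r) := by
    intro r
    by_cases h : ∃ s ∈ A2, f s = r
    · obtain ⟨s, hs, hfs⟩ := h
      exact ⟨s, fun _ => ⟨hs, hfs⟩⟩
    · exact ⟨0, fun h' => absurd h' h⟩
  choose g hg using hg
  set c : ℕ → ℕ := fun r =>
    if r.Prime ∧ r ≤ w then c1 r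
    else if r ≤ y then (if Ok D r b then b else d r)
    else if ∃ s ∈ A2, f s = r then g r else d r with hc
  refine ⟨c, ?_, ?_⟩
  · intro r hr3
    simp only [hc]
    split_ifs with h1 h2 h3 h4
    · exact hc1ok r (Finset.mem_filter.mpr ⟨Finset.mem_Icc.mpr ⟨hr3, h1.2⟩, h1.1⟩)
    · exact h3
    · exact hd r hr3
    · obtain ⟨hgA, hgr⟩ := hg r h4
      have h5 := (hf _ hgA).2
      have ht0 := Finset.mem_Ioo.mp (Finset.mem_filter.mp (Finset.mem_filter.mp hgA).1).1
      have hrp : r.Prime := by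
        have h6 := (hf _ hgA).1
        rw [hgr] at h6
        exact (Finset.mem_filter.mp h6).2
      rw [hgr, Finset.mem_union, not_or, Nat.mem_primeFactors, Nat.mem_primeFactors] at h5
      refine ⟨?_, ?_⟩
      · intro h6
        exact h5.1 ⟨hrp, Nat.modEq_zero_iff_dvd.mp h6, by omega⟩
      · intro h6
        exact h5.2 ⟨hrp, (Nat.modEq_iff_dvd' ht0.2.le).mp h6, by omega⟩
    · exact hd r hr3
  · intro t ht0 htD
    have htA : t ∈ A := Finset.mem_Ioo.mpr ⟨ht0, htD⟩
    by_cases h1 : t ∈ A1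
    · by_cases h2 : t ∈ A2
      · -- its own prime
        have h3 := hf t h2
        have h4 := Finset.mem_filter.mp h3.1
        have h5 := Finset.mem_Ioc.mp h4.1
        refine ⟨f t, h4.2, by omega, h5.2, ?_⟩
        have h6 : ∃ s ∈ A2, f s = f t := ⟨t, h2, rfl⟩
        have h7 := hg (f t) h6
        have h8 : g (f t) = t := hinj (Finset.mem_coe.mpr h7.1) (Finset.mem_coe.mpr h2) h7.2
        have h9 : c (f t) = t := by
          simp only [hc]
          rw [if_neg (by omega), if_neg (by omega), if_pos h6, h8]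
        rw [h9]
      · have h3 : ¬ ∀ r ∈ S1, ¬ t ≡ c1 r [MOD r] := fun h => h2 (Finset.mem_filter.mpr ⟨h1, h⟩)
        push Not at h3
        obtain ⟨r, hr, htr⟩ := h3
        have hr' := Finset.mem_filter.mp hr
        have hrI := Finset.mem_Icc.mp hr'.1
        have hwz : w ≤ z := by
          by_contra hcon
          have hempty : S3 = ∅ := by
            rw [hS3, Finset.Ioc_eq_empty (by omega)]
            rfl
          rw [hempty] at hA2card
          simp at hA2card
        refine ⟨r, hr'.2, hrI.1, by omega, ?_⟩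
        have h9 : c r = c1 r := by
          simp only [hc]
          rw [if_pos ⟨hr'.2, hrI.2⟩]
        rw [h9]
        exact htr
    · have h3 : b ∉ badC Y w y D t := fun h => h1 (Finset.mem_filter.mpr ⟨htA, h⟩)
      unfold badC at h3
      rw [Finset.mem_filter] at h3
      push Not at h3
      obtain ⟨r, hrp, hwr, hry, htb, hok⟩ := h3 hbY
      have hyz : y ≤ z := by
        by_contra hcon
        have hempty : S3 = ∅ := by
          rw [hS3, Finset.Ioc_eq_empty (by omega)]
          rfl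
        rw [hempty] at hA2card
        simp at hA2card
      refine ⟨r, hrp, by omega, by omega, ?_⟩
      have h9 : c r = b := by
        simp only [hc]
        rw [if_neg (by omega), if_pos hry, if_pos hok]
      rw [h9]
      exact htb

end Pool.Agent.Lib.MP_45349e_nt
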