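import Mathlib
import Pool.Agent.Lib.MP_45349e_nt.Abstract
import Pool.Agent.Lib.Sieve.CoveringQuant

/-!
# Covering an open interval by residue classes which avoid both end points: quantitative form
-/

open Finset Filter

namespace Pool.Agent.Lib.MP_45349e_nt

open Pool.Agent.Lib.Sieve

theorem arPar1 {L1 L2 L3 : ℝ} (h : 24 * L2 ^ 2 ≤ L1) (h3 : 40 ≤ L3) (h2 : 0 ≤ L2) :
    3 * L2 * (8 * L2) ≤ L1 * L3 := by
  have h1 : 0 ≤ L1 := by nlinarith [sq_nonneg L2]
  nlinarith

theorem arPar2 {L1 L2 : ℝ} (h1 : L2 ^ 3 ≤ L1 * 6) (h2 : 800 ≤ L2) : 24 * L2 ^ 2 ≤ L1 := by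
  nlinarith [sq_nonneg L2]

theorem arPar3 {L1 : ℝ} (h : 320000 ≤ L1) : (2 : ℝ) ≤ L1 ^ 3 := by
  nlinarith [sq_nonneg L1]

theorem arPar4 {L1 : ℝ} (h : 320000 ≤ L1) : (3 : ℝ) ≤ L1 ^ 3 / 2 := by
  nlinarith [sq_nonneg L1]

/-- The parameters of the Erdős–Rankin method. -/
theorem params (B : ℝ) (hB : 0 ≤ B) : ∃ K : ℝ, 0 < K ∧ ∃ z₀ : ℕ, ∀ z : ℕ, z₀ ≤ z →
    ∀ Y' : ℕ, z ≤ Y' → (Y' : ℝ) ≤ z * (Real.log z) ^ B → ∃ w : ℕ,
    3 ≤ w ∧ w ≤ z / 100 ∧ (Real.log z) ^ 3 / 2 ≤ w ∧
    ((gapFree Y' w (z / 100)).card : ℝ) ≤ K * Y' * (Real.log (Real.log z) / Real.log z) ∧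
    ∏ r ∈ (Finset.Icc 3 w).filter Nat.Prime, (1 - 1 / (r : ℝ)) ≤
      16 * Real.log (Real.log z) / (Real.log z * Real.log (Real.log (Real.log z))) ∧
    1 / 50 * (z : ℝ) / Real.log z ≤ (((Finset.Ioc (z / 100) z).filter Nat.Prime).card : ℝ) ∧
    40 ≤ Real.log (Real.log (Real.log z)) ∧ 800 ≤ Real.log (Real.log z) ∧
    400 * Real.log (Real.log z) ≤ Real.log z ∧ 160000 * Real.log z ≤ z := by
  obtain ⟨C, hC, hR⟩ := rankin
  set K : ℝ := 10 * (B + 200) + 1 with hK
  have hKpos : 0 < K := by positivity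
  obtain ⟨z₀, hz₀⟩ := eventually_logs C
  refine ⟨K, hKpos, z₀, fun z hz Y' hY'z hY'le => ?_⟩
  obtain ⟨hL1, hL2, hCL2, hL3⟩ := hz₀ z hz
  have hz0 : (0 : ℝ) < z := by
    by_contra h
    have : (z : ℝ) = 0 := le_antisymm (not_lt.mp h) (Nat.cast_nonneg z)
    rw [this, Real.log_zero] at hL1
    exact lt_irrefl _ hL1
  set L1 := Real.log z with hL1def
  set L2 := Real.log L1 with hL2def
  set L3 := Real.log L2 with hL3def
  have hzexp : (z : ℝ) = Real.exp L1 := (Real.exp_log hz0).symm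
  have hL1exp : L1 = Real.exp L2 := (Real.exp_log hL1).symm
  have hL2exp : L2 = Real.exp L3 := (Real.exp_log hL2).symm
  have hL3pos : 0 < L3 := by linarith
  have hL2big : 20 * L3 ≤ L2 := by
    have := sq_half_le_exp (x := L3) (by linarith)
    rw [← hL2exp] at this
    exact arCQ8 hL3 this
  have hL2big' : 800 ≤ L2 := by linarith
  have hL1big : 400 * L2 ≤ L1 := by
    have := sq_half_le_exp (x := L2) (by linarith)
    rw [← hL1exp] at this
    exact arCQ9 hL2big' this
  have hL1big' : 320000 ≤ L1 := by linarith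
  have hzbig : 160000 * L1 ≤ z := by
    have := sq_half_le_exp (x := L1) (by linarith)
    rw [← hzexp] at this
    exact arCQ10 hL1big' this
  -- the parameter w
  set E : ℝ := L1 * L3 / (8 * L2) with hE
  have hE1 : E ≤ L1 / 8 := by
    rw [hE, div_le_div_iff₀ (by positivity) (by norm_num)]
    exact arCQ11 hL1 hL2big hL3pos
  have hE2 : 100 ≤ E := by
    rw [hE, le_div_iff₀ (by positivity)]
    exact arCQ12 hL1big hL2big' hL3
  have hEpos : 0 < E := by linarith
  set w : ℕ := ⌊Real.exp E⌋₊ with hw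
  have hwle : (w : ℝ) ≤ Real.exp E := Nat.floor_le (Real.exp_pos _).le
  have hwlt : Real.exp E < (w : ℝ) + 1 := Nat.lt_floor_add_one _
  have hw2 : 2 ≤ w := by
    apply Nat.le_floor
    have := Real.add_one_le_exp E
    push_cast
    linarith
  have hw0 : (0 : ℝ) < w := by exact_mod_cast (by omega : 0 < w)
  have hlogw : Real.log w ≤ E := by
    have := Real.log_le_log hw0 hwle
    rwa [Real.log_exp] at this
  have hlogw0 : 0 ≤ Real.log w := Real.log_nonneg (by exact_mod_cast (by omega : 1 ≤ w))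
  have hlogw1 : E ≤ Real.log ((w : ℝ) + 1) := by
    have := Real.log_le_log (Real.exp_pos _) hwlt.le
    rwa [Real.log_exp] at this
  -- the parameter y
  set y : ℕ := z / 100 with hy
  have hznat : 1000000 ≤ z := by
    have : (1000000 : ℝ) ≤ z := by linarith
    exact_mod_cast this
  have hy2 : 2 ≤ y := by omega
  have hyz : y ≤ z := by omega
  have hy0 : (0 : ℝ) < y := by exact_mod_cast (by omega : 0 < y)
  have hy200 : (z : ℝ) / 200 ≤ y := by
    have h1 : z ≤ 200 * y := by omega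
    have h2 : (z : ℝ) ≤ 200 * y := by exact_mod_cast h1
    linarith
  have hwy : w ≤ y := by
    rw [hy, Nat.le_div_iff_mul_le (by norm_num)]
    have h1 : (w : ℝ) * 100 ≤ z := by
      have h2 : Real.exp E ≤ Real.exp (L1 / 8) := Real.exp_le_exp.mpr hE1
      have h3 : (100 : ℝ) ≤ Real.exp (L1 / 8) := by
        have := Real.add_one_le_exp (L1 / 8)
        linarith
      have h4 : Real.exp (L1 / 8) * Real.exp (L1 / 8) ≤ z := by
        rw [← Real.exp_add, hzexp]
        apply Real.exp_le_exp.mpr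
        linarith
      exact arCQ1 h3 h4 (hwle.trans h2)
    exact_mod_cast h1
  have hlog200 : Real.log 200 ≤ 199 := by
    have := Real.log_le_sub_one_of_pos (x := 200) (by norm_num)
    linarith
  have hlogy : L1 / 2 ≤ Real.log y := by
    have h1 : Real.log ((z : ℝ) / 200) ≤ Real.log y := Real.log_le_log (by positivity) hy200
    rw [Real.log_div hz0.ne' (by norm_num)] at h1
    rw [← hL1def] at h1
    linarith
  -- the parameter Y'
  have hY'0 : (0 : ℝ) < Y' := by
    have : (z : ℝ) ≤ Y' := by exact_mod_cast hY'z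
    linarith
  have hL1B : 1 ≤ L1 ^ B := Real.one_le_rpow (by linarith) hB
  have hL1B0 : 0 < L1 ^ B := by linarith
  have hlogY' : L1 ≤ Real.log Y' := Real.log_le_log hz0 (by exact_mod_cast hY'z)
  -- Rankin's bound
  set η : ℝ := 4 * L2 / L1 with hη
  have hηpos : 0 < η := by positivity
  have hη2 : η ≤ 1 / 2 := by
    rw [hη, div_le_div_iff₀ hL1 (by norm_num)]
    linarith
  have hS := hR Y' w η hw2 (by omega) hηpos hη2
  set S : ℝ := (((Finset.Icc 1 Y').filter (fun d => ∀ p ∈ d.primeFactors, p ≤ w)).card : ℝ)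
    with hSdef
  have hSle : S ≤ Y' * (L2 / L1) := by
    have h1 : (Y' : ℝ) ^ (-η) ≤ Real.exp (-(4 * L2)) := by
      rw [Real.rpow_def_of_pos hY'0]
      apply Real.exp_le_exp.mpr
      have : L1 * η = 4 * L2 := by rw [hη]; field_simp
      exact arCQ3 hlogY' hηpos this
    have h2 : (w : ℝ) ^ η ≤ Real.exp (L3 / 2) := by
      rw [Real.rpow_def_of_pos hw0]
      apply Real.exp_le_exp.mpr
      have h3 : E * η = L3 / 2 := by
        rw [hE, hη]; field_simp; norm_num
      exact arCQ4 hlogw hηpos h3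
    have h2' : 0 ≤ (w : ℝ) ^ η := by positivity
    have hlog4 : Real.log 4 ≤ 3 := by
      have := Real.log_le_sub_one_of_pos (x := 4) (by norm_num)
      linarith
    have hlog40 : 0 ≤ Real.log 4 := Real.log_nonneg (by norm_num)
    have h4 : 4 * η * (w : ℝ) ^ η * (Real.log w + Real.log 4) ≤ L2 := by
      have h5 : Real.log w + Real.log 4 ≤ 2 * E := by linarith
      calc 4 * η * (w : ℝ) ^ η * (Real.log w + Real.log 4)
          ≤ 4 * η * Real.exp (L3 / 2) * (2 * E) := by gcongr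
        _ = 8 * (E * η) * Real.exp (L3 / 2) := by ring
        _ = 4 * L3 * Real.exp (L3 / 2) := by
            have h3 : E * η = L3 / 2 := by
              rw [hE, hη]; field_simp; norm_num
            rw [h3]; ring
        _ ≤ Real.exp (L3 / 2) * Real.exp (L3 / 2) := by
            have h6 := sq_half_le_exp (x := L3 / 2) (by linarith)
            have h7 : 4 * L3 ≤ Real.exp (L3 / 2) := arCQ5 hL3 h6
            exact mul_le_mul_of_nonneg_right h7 (Real.exp_pos (L3 / 2)).le
        _ = L2 := by rw [← Real.exp_add, add_halves, ← hL2exp]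
    have h9 : Real.log w ≤ L1 := by linarith
    calc S ≤ C * Y' * (Y' : ℝ) ^ (-η) * Real.log w *
        Real.exp (4 * η * (w : ℝ) ^ η * (Real.log w + Real.log 4)) := hS
      _ ≤ C * Y' * Real.exp (-(4 * L2)) * L1 * Real.exp L2 := by gcongr
      _ = C * Y' * (Real.exp (-(4 * L2)) * Real.exp L2 * Real.exp L2) := by
          rw [hL1exp]; rw [← hL1exp]; ring
      _ = C * Y' * Real.exp (-L2) * Real.exp (-L2) := by
          rw [← Real.exp_add, ← Real.exp_add]
          rw [show -(4 * L2) + L2 + L2 = -L2 + -L2 by ring, Real.exp_add]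
          ring
      _ ≤ L2 * Y' * 1 * Real.exp (-L2) := by
          have : Real.exp (-L2) ≤ 1 := Real.exp_le_one_iff.mpr (by linarith)
          gcongr
      _ = Y' * (L2 / L1) := by
          rw [Real.exp_neg, ← hL1exp]
          ring
  -- bound for gapFree
  have hG := gapFree_card_le Y' w y hy2 (by omega)
  rw [← hSdef] at hG
  have hlogYy : 1 + Real.log ((Y' : ℝ) / y) ≤ (B + 200) * L2 := by
    have h1 : (Y' : ℝ) / y ≤ 200 * L1 ^ B := by
      rw [div_le_iff₀ hy0]
      calc (Y' : ℝ) ≤ z * L1 ^ B := hY'le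
        _ = 200 * L1 ^ B * (z / 200) := by ring
        _ ≤ 200 * L1 ^ B * y := by gcongr
    have h2 : Real.log ((Y' : ℝ) / y) ≤ Real.log (200 * L1 ^ B) :=
      Real.log_le_log (by positivity) h1
    rw [Real.log_mul (by norm_num) hL1B0.ne', Real.log_rpow hL1, ← hL2def] at h2
    exact arCQ6 h2 hlog200 hL2big'
  have hlogYy0 : 0 ≤ 1 + Real.log ((Y' : ℝ) / y) := by
    have : 0 ≤ Real.log ((Y' : ℝ) / y) := by
      apply Real.log_nonneg
      rw [le_div_iff₀ hy0, one_mul]
      exact_mod_cast (by omega : y ≤ Y')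
    linarith
  have hGle : ((gapFree Y' w y).card : ℝ) ≤ K * Y' * (L2 / L1) := by
    have h1 : 5 * (Y' : ℝ) / Real.log y * (1 + Real.log ((Y' : ℝ) / y)) ≤
        5 * (Y' : ℝ) / (L1 / 2) * ((B + 200) * L2) := by gcongr
    have h2 : 5 * (Y' : ℝ) / (L1 / 2) * ((B + 200) * L2) = 10 * (B + 200) * Y' * (L2 / L1) := by
      field_simp; norm_num
    have h3 : K * Y' * (L2 / L1) = 10 * (B + 200) * Y' * (L2 / L1) + Y' * (L2 / L1) := by
      rw [hK]; ring
    linarith
  have hprod := prod_odd_le w hw2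
  have hprod' : ∏ r ∈ (Finset.Icc 3 w).filter Nat.Prime, (1 - 1 / (r : ℝ)) ≤
      16 * L2 / (L1 * L3) := by
    refine hprod.trans ?_
    have h1 : 2 / Real.log ((w : ℝ) + 1) ≤ 2 / E := by gcongr
    have h2 : 2 / E = 16 * L2 / (L1 * L3) := by
      rw [hE]; field_simp; norm_num
    rw [← h2]; exact h1
  have hfin := card_primes_upper_range z (by linarith)
  have hE3 : 3 * L2 ≤ E := by
    rw [hE, le_div_iff₀ (by positivity)]
    have h1 := Real.pow_div_factorial_le_exp (x := L2) (by linarith) 3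
    rw [← hL1exp] at h1
    have h2 : ((Nat.factorial 3 : ℕ) : ℝ) = 6 := by norm_num [Nat.factorial]
    rw [h2, div_le_iff₀ (by norm_num)] at h1
    exact arPar1 (arPar2 h1 hL2big') hL3 (by linarith)
  have hwbig : L1 ^ 3 / 2 ≤ (w : ℝ) := by
    have h1 : L1 ^ 3 ≤ Real.exp E := by
      rw [show L1 ^ 3 = Real.exp (3 * L2) by
        rw [hL1exp, ← Real.exp_nat_mul]; norm_num]
      exact Real.exp_le_exp.mpr hE3
    have h2 : (2 : ℝ) ≤ L1 ^ 3 := arPar3 hL1big'
    linarith
  refine ⟨w, ?_, hwy, hwbig, hGle, hprod', hfin, hL3, hL2big', hL1big, hzbig⟩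
  have h1 : (3 : ℝ) ≤ w := (arPar4 hL1big').trans hwbig
  exact_mod_cast h1

end Pool.Agent.Lib.MP_45349e_nt
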