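import Mathlib
import Pool.Agent.Lib.MP_45349e_nt.Params

/-!
# Covering an open interval by residue classes which avoid both end points
-/

open Finset Filter

namespace Pool.Agent.Lib.MP_45349e_nt

open Pool.Agent.Lib.Sieve

theorem alg1 (K L1 L2 L3 z : ℝ) (hK : 0 < K) (hL1 : L1 ≠ 0) (hL2 : L2 ≠ 0) (hL3 : L3 ≠ 0) :
    (2 * K + 2) * (L2 / L1) * (16 * L2 / (L1 * L3) * (Real.exp 6 *
      (1 / (1600 * (2 * K + 2) * Real.exp 6) * z * L1 * L3 / L2 ^ 2))) = 1 / 100 * z / L1 := by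
  have h1 : (2 * K + 2) ≠ 0 := by positivity
  have h2 : Real.exp 6 ≠ 0 := (Real.exp_pos 6).ne'
  field_simp
  ring

theorem natlog_le (Y : ℕ) (hY : 1 ≤ Y) : (Nat.log 2 Y : ℝ) ≤ 2 * Real.log Y := by
  have h1 : 2 ^ Nat.log 2 Y ≤ Y := Nat.pow_log_le_self 2 (by omega)
  have h2 : Real.log ((2 : ℝ) ^ Nat.log 2 Y) ≤ Real.log Y :=
    Real.log_le_log (by positivity) (by exact_mod_cast h1)
  rw [Real.log_pow] at h2
  have h3 := Real.log_two_gt_d9
  have h4 : (0 : ℝ) ≤ Nat.log 2 Y := Nat.cast_nonneg _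
  nlinarith

/-- the bound for the proportion of bad centres -/
theorem ratio_le (K L1 L2 g Y w lg : ℝ) (hK : 0 < K) (hL1 : 1 ≤ L1) (hL2 : 800 ≤ L2)
    (hL : 400 * L2 ≤ L1) (hY : 160000 * L1 ≤ Y) (hw : L1 ^ 3 / 2 ≤ w)
    (hg : g ≤ K * Y * (L2 / L1)) (hlg : lg ≤ 4 * L1) (hlg0 : 0 ≤ lg) :
    (2 * g + 1 + (2 * lg) * (2 * Y / w)) / Y ≤ (2 * K + 2) * (L2 / L1) := by
  have hL10 : 0 < L1 := by linarith
  have hL20 : 0 < L2 := by linarith
  have hY0 : 0 < Y := by linarith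
  have hw0 : 0 < w := by
    have : 0 < L1 ^ 3 / 2 := by positivity
    linarith
  rw [div_le_iff₀ hY0]
  have h1 : 2 * g ≤ 2 * (K * Y * (L2 / L1)) := by linarith
  have h2 : 1 ≤ (L2 / L1) * Y := by
    rw [div_mul_eq_mul_div, le_div_iff₀ hL10]
    nlinarith
  have h3 : (2 * lg) * (2 * Y / w) ≤ (L2 / L1) * Y := by
    calc (2 * lg) * (2 * Y / w) ≤ (2 * (4 * L1)) * (2 * Y / (L1 ^ 3 / 2)) := by gcongr
      _ = (32 / L1 ^ 2) * Y := by field_simp; norm_num
      _ ≤ (L2 / L1) * Y := by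
        apply mul_le_mul_of_nonneg_right _ hY0.le
        rw [div_le_div_iff₀ (by positivity) hL10]
        nlinarith [mul_pos hL10 hL20]
  calc 2 * g + 1 + (2 * lg) * (2 * Y / w)
      ≤ 2 * (K * Y * (L2 / L1)) + (L2 / L1) * Y + (L2 / L1) * Y := by linarith
    _ = (2 * K + 2) * (L2 / L1) * Y := by ring

/-- **Covering with both end points uncovered.** -/
theorem covering_quant : ∃ c : ℝ, 0 < c ∧ ∃ z₀ : ℕ, ∀ z : ℕ, z₀ ≤ z → ∀ D : ℕ,
    (D : ℝ) ≤ c * z * Real.log z * Real.log (Real.log (Real.log z)) / (Real.log (Real.log z)) ^ 2 →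
    ∃ cl : ℕ → ℕ, (∀ r : ℕ, 3 ≤ r → Ok D r (cl r)) ∧
      ∀ t : ℕ, 0 < t → t < D → ∃ r : ℕ, r.Prime ∧ 3 ≤ r ∧ r ≤ z ∧ t ≡ cl r [MOD r] := by
  obtain ⟨K, hK, z₀, hpar⟩ := params 1 zero_le_one
  refine ⟨1 / (1600 * (2 * K + 2) * Real.exp 6), by positivity, max z₀ 3, fun z hz D hD => ?_⟩
  have hz0 : z₀ ≤ z := (le_max_left _ _).trans hz
  have hz3 : 3 ≤ z := (le_max_right _ _).trans hz
  have hpar' := hpar z hz0
  simp only [Real.rpow_one] at hpar'
  have hzr : (3 : ℝ) ≤ z := by exact_mod_cast hz3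
  have hlog1 : 1 ≤ Real.log z := by
    rw [Real.le_log_iff_exp_le (by linarith)]
    have := Real.exp_one_lt_d9
    linarith
  set c : ℝ := 1 / (1600 * (2 * K + 2) * Real.exp 6) with hc
  have hc0 : 0 < c := by positivity
  have hc1 : c ≤ 1 := by
    rw [hc, div_le_one (by positivity)]
    have h1 := Real.add_one_le_exp (6 : ℝ)
    nlinarith
  set L1 := Real.log z with hL1def
  set L2 := Real.log L1 with hL2def
  set L3 := Real.log L2 with hL3def
  obtain ⟨-, -, -, -, -, -, -, hL3, hL2, hL1, hzL⟩ := hpar' z le_rfl (by nlinarith)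
  have hL3L2 : L3 ≤ L2 := by
    have := Real.log_le_sub_one_of_pos (x := L2) (by linarith)
    linarith
  have hDz : (D : ℝ) ≤ z * L1 := by
    refine hD.trans ?_
    rw [div_le_iff₀ (by positivity)]
    calc c * z * L1 * L3 ≤ 1 * z * L1 * L2 := by gcongr
      _ = (z * L1) * L2 := by ring
      _ ≤ (z * L1) * L2 ^ 2 := by
          have h0 : 0 ≤ (z : ℝ) * L1 := by positivity
          have h1 : L2 ≤ L2 ^ 2 := by nlinarith
          exact mul_le_mul_of_nonneg_left h1 h0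
  set Y := max D z with hY
  have hzY : z ≤ Y := le_max_right _ _
  have hDY : D ≤ Y := le_max_left _ _
  have hYle : (Y : ℝ) ≤ z * L1 := by
    rw [hY, Nat.cast_max]
    apply max_le hDz
    nlinarith
  obtain ⟨w, hw3, hwy, hwbig, hgap, hprod, hfin, -, -, -, -⟩ := hpar' Y hzY hYle
  have hzYr : (z : ℝ) ≤ Y := by exact_mod_cast hzY
  have hY0 : (0 : ℝ) < Y := by linarith
  have hlogY : Real.log Y ≤ 2 * L1 := by
    have h1 : Real.log Y ≤ Real.log (z * L1) := Real.log_le_log hY0 hYle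
    rw [Real.log_mul (by positivity) (by positivity), ← hL1def, ← hL2def] at h1
    linarith
  have hyz : z / 100 ≤ z := Nat.div_le_self _ _
  have hDy : D < (z / 100) ^ 2 := by
    have h1 : (z : ℝ) / 200 ≤ ((z / 100 : ℕ) : ℝ) := by
      have h2 : z ≤ 200 * (z / 100) := by
        have : (160000 : ℝ) ≤ z := by linarith
        have : 160000 ≤ z := by exact_mod_cast this
        omega
      have h3 : (z : ℝ) ≤ 200 * ((z / 100 : ℕ) : ℝ) := by exact_mod_cast h2
      linarith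
    have h2 : (D : ℝ) < (((z / 100 : ℕ) : ℝ)) ^ 2 := by
      calc (D : ℝ) ≤ z * L1 := hDz
        _ < (z / 200) ^ 2 := by nlinarith
        _ ≤ _ := by gcongr
    exact_mod_cast h2
  refine covering_abstract' z w (z / 100) Y D hw3 hwy (by omega) hDY hDy ?_
  refine le_trans ?_ hfin
  have h1 := ratio_le K L1 L2 ((gapFree Y w (z / 100)).card : ℝ) Y w (Nat.log 2 Y) hK hlog1 hL2 hL1
    (by linarith) hwbig hgap (by
      have := natlog_le Y (by omega)
      linarith) (Nat.cast_nonneg _)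
  have h2 : (∏ r ∈ (Finset.Icc 3 w).filter Nat.Prime, (1 - 1 / (r : ℝ))) * (Real.exp 6 * D) ≤
      16 * L2 / (L1 * L3) * (Real.exp 6 * (c * z * L1 * L3 / L2 ^ 2)) := by
    apply mul_le_mul hprod _ (by positivity) (by positivity)
    exact mul_le_mul_of_nonneg_left hD (Real.exp_pos 6).le
  have h3 : 0 ≤ (∏ r ∈ (Finset.Icc 3 w).filter Nat.Prime, (1 - 1 / (r : ℝ))) * (Real.exp 6 * D) := by
    apply mul_nonneg
    · apply Finset.prod_nonneg
      intro r hr
      have : (1 : ℝ) ≤ r := by exact_mod_cast (Finset.mem_filter.mp hr).2.one_lt.le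
      rw [sub_nonneg, div_le_one (by linarith)]
      exact this
    · positivity
  have h4 := mul_le_mul h1 h2 h3 (by positivity)
  rw [hc, alg1 K L1 L2 L3 z hK (by linarith) (by linarith) (by linarith)] at h4
  have h5 : (2 : ℝ) ≤ 1 / 100 * z / L1 := by
    rw [le_div_iff₀ (by linarith)]
    linarith
  have h6 : 1 / 50 * (z : ℝ) / L1 = 1 / 100 * z / L1 + 1 / 100 * z / L1 := by ring
  rw [h6]
  linarith

end Pool.Agent.Lib.MP_45349e_nt
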