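import Mathlib
import Pool.Agent.Lib.MP_45349e_nt.Quant

/-!
# From a covering to a gap between consecutive totatives of a primorial
-/

open Finset Filter

namespace Pool.Agent.Lib.MP_45349e_nt

/-- coprimality to a number whose prime factors are the primes up to `z` -/
theorem coprime_iff (n z x : ℕ) (hn : ∀ p : ℕ, p.Prime → (p ∣ n ↔ p ≤ z)) :
    Nat.Coprime x n ↔ ∀ p : ℕ, p.Prime → p ≤ z → ¬ p ∣ x := by
  constructor
  · intro h p hp hpz hpx
    have := Nat.dvd_gcd hpx ((hn p hp).mpr hpz)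
    rw [Nat.Coprime] at h
    rw [h] at this
    exact hp.one_lt.ne' (Nat.dvd_one.mp this)
  · intro h
    rw [Nat.coprime_comm]
    apply Nat.Coprime.symm
    by_contra hcon
    obtain ⟨p, hp, hpx, hpn⟩ := Nat.Prime.not_coprime_iff_dvd.mp hcon
    exact h p hp ((hn p hp).mp hpn) hpx

theorem exists_gap (n z D : ℕ) (hz : 3 ≤ z) (hn0 : n ≠ 0)
    (hn : ∀ p : ℕ, p.Prime → (p ∣ n ↔ p ≤ z)) (hD : 2 ≤ D) (cl : ℕ → ℕ)
    (hok : ∀ r : ℕ, 3 ≤ r → Ok D r (cl r))
    (hcov : ∀ t : ℕ, 0 < t → t < D → ∃ r : ℕ, r.Prime ∧ 3 ≤ r ∧ r ≤ z ∧ t ≡ cl r [MOD r]) :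
    ∃ a : ℕ, 1 ≤ a ∧ a + 2 * D < n ∧ Nat.Coprime a n ∧ Nat.Coprime (a + 2 * D) n ∧
      ∀ x : ℕ, a < x → x < a + 2 * D → ¬ Nat.Coprime x n := by
  classical
  set T := (Finset.Icc 2 z).filter Nat.Prime with hT
  have hTp : ∀ r ∈ T, r.Prime := fun r hr => (Finset.mem_filter.mp hr).2
  set res : ℕ → ℕ := fun r => if r = 2 then 1 else (r - 1) * (2 * cl r) with hres
  obtain ⟨N, hN⟩ := Nat.chineseRemainderOfFinset res (fun r => r) T
    (fun r hr => (hTp r hr).ne_zero) (by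
      intro p hp q hq hpq
      exact (Nat.coprime_primes (hTp p hp) (hTp q hq)).mpr hpq)
  set a := N % n with ha
  have ha_lt : a < n := Nat.mod_lt _ (Nat.pos_of_ne_zero hn0)
  have hNr : ∀ r : ℕ, r.Prime → r ≤ z → a ≡ res r [MOD r] := by
    intro r hr hrz
    have h1 : N ≡ res r [MOD r] :=
      hN r (Finset.mem_filter.mpr ⟨Finset.mem_Icc.mpr ⟨hr.two_le, hrz⟩, hr⟩)
    have h2 : a ≡ N [MOD r] := (Nat.mod_modEq N n).of_dvd ((hn r hr).mpr hrz)
    exact h2.trans h1
  have ha2 : a % 2 = 1 := by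
    have := hNr 2 Nat.prime_two (by omega)
    simp only [hres, if_true] at this
    exact this
  -- the key equivalence
  have hkey : ∀ r : ℕ, r.Prime → 3 ≤ r → r ≤ z → ∀ t : ℕ, (r ∣ a + 2 * t ↔ t ≡ cl r [MOD r]) := by
    intro r hr hr3 hrz t
    have h1 : a ≡ (r - 1) * (2 * cl r) [MOD r] := by
      have := hNr r hr hrz
      simp only [hres] at this
      rwa [if_neg (by omega)] at this
    have h2 : a + 2 * cl r ≡ 0 [MOD r] := by
      have h3 : a + 2 * cl r ≡ (r - 1) * (2 * cl r) + 2 * cl r [MOD r] := h1.add_right _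
      refine h3.trans ?_
      have h4 : (r - 1) * (2 * cl r) + 2 * cl r = r * (2 * cl r) := by
        obtain ⟨s, rfl⟩ : ∃ s, r = s + 1 := ⟨r - 1, by omega⟩
        simp only [Nat.add_sub_cancel]
        ring
      rw [h4]
      exact Nat.modEq_zero_iff_dvd.mpr (Dvd.intro _ rfl)
    have hcop : Nat.gcd r 2 = 1 := by
      have := (Nat.coprime_primes hr Nat.prime_two).mpr (by omega)
      exact this
    constructor
    · intro h
      have h3 : a + 2 * t ≡ a + 2 * cl r [MOD r] := (Nat.modEq_zero_iff_dvd.mpr h).trans h2.symm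
      have h4 : 2 * t ≡ 2 * cl r [MOD r] := Nat.ModEq.add_left_cancel' a h3
      exact Nat.ModEq.cancel_left_of_coprime hcop h4
    · intro h
      have h3 : a + 2 * t ≡ a + 2 * cl r [MOD r] := (h.mul_left 2).add_left a
      exact Nat.modEq_zero_iff_dvd.mp (h3.trans h2)
  have hcopa : Nat.Coprime a n := by
    rw [coprime_iff n z a hn]
    intro p hp hpz hpa
    rcases Nat.lt_or_ge p 3 with h | h
    · have hp2 : p = 2 := by have := hp.two_le; omega
      subst hp2
      omega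
    · have h1 := (hkey p hp h hpz 0).mp (by simpa using hpa)
      exact (hok p h).1 h1.symm
  have hcopD : Nat.Coprime (a + 2 * D) n := by
    rw [coprime_iff n z _ hn]
    intro p hp hpz hpa
    rcases Nat.lt_or_ge p 3 with h | h
    · have hp2 : p = 2 := by have := hp.two_le; omega
      subst hp2
      omega
    · have h1 := (hkey p hp h hpz D).mp hpa
      exact (hok p h).2 h1.symm
  have hbet : ∀ x : ℕ, a < x → x < a + 2 * D → ¬ Nat.Coprime x n := by
    intro x hx1 hx2 hcop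
    rw [coprime_iff n z x hn] at hcop
    obtain ⟨s, hs⟩ : ∃ s, x = a + s := ⟨x - a, by omega⟩
    rcases Nat.even_or_odd' s with ⟨t, ht | ht⟩
    · obtain ⟨r, hr, hr3, hrz, hrt⟩ := hcov t (by omega) (by omega)
      apply hcop r hr hrz
      rw [hs, ht]
      exact (hkey r hr hr3 hrz t).mpr hrt
    · exact hcop 2 Nat.prime_two (by omega) (by omega)
  have hn2 : 2 ≤ n := Nat.le_of_dvd (Nat.pos_of_ne_zero hn0) ((hn 2 Nat.prime_two).mpr (by omega))
  have hcop1 : Nat.Coprime (n - 1) n := by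
    have : Nat.Coprime (n - 1) (n - 1 + 1) := Nat.coprime_self_add_right.mpr (Nat.coprime_one_right _)
    rwa [Nat.sub_add_cancel (by omega)] at this
  have hcop2 : Nat.Coprime (n + 1) n := by
    rw [Nat.coprime_comm]
    exact Nat.coprime_self_add_right.mpr (Nat.coprime_one_right _)
  have ha1 : 1 ≤ a := by
    by_contra h
    have h0 : a = 0 := by omega
    omega
  refine ⟨a, ha1, ?_, hcopa, hcopD, hbet⟩
  by_contra hcon
  rcases Nat.lt_or_ge a (n - 1) with h | h
  · exact hbet (n - 1) h (by omega) hcop1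
  · exact hbet (n + 1) (by omega) (by omega) hcop2

/-- the gap `2` -/
theorem gap_two (n m z : ℕ) (hz : 5 ≤ z) (hnm : n = 2 * m) (hm : m % 2 = 1) (hm5 : 5 ≤ m)
    (hn : ∀ p : ℕ, p.Prime → (p ∣ n ↔ p ≤ z)) :
    ∃ a : ℕ, 1 ≤ a ∧ a + 2 * 1 < n ∧ Nat.Coprime a n ∧ Nat.Coprime (a + 2 * 1) n ∧
      ∀ x : ℕ, a < x → x < a + 2 * 1 → ¬ Nat.Coprime x n := by
  have hodd : ∀ p : ℕ, p.Prime → p ≤ z → p ≠ 2 → p ∣ m := by
    intro p hp hpz hp2
    have h1 := (hn p hp).mpr hpz
    rw [hnm] at h1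
    rcases (hp.dvd_mul).mp h1 with h | h
    · exact absurd ((Nat.prime_dvd_prime_iff_eq hp Nat.prime_two).mp h) hp2
    · exact h
  have hgen : ∀ p : ℕ, p.Prime → p ≠ 2 → ∀ j : ℕ, j ≤ m → p ∣ m → p ∣ m - j → p ∣ j := by
    intro p _ _ j hj h1 h2
    have := Nat.dvd_sub h1 h2
    rwa [Nat.sub_sub_self hj] at this
  refine ⟨m - 4, by omega, by omega, ?_, ?_, ?_⟩
  · rw [coprime_iff n z _ hn]
    intro p hp hpz hpa
    by_cases hp2 : p = 2
    · subst hp2; omega
    · have h1 := hgen p hp hp2 4 (by omega) (hodd p hp hpz hp2) hpa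
      have h2 : p ∣ 2 ^ 2 := by norm_num; exact h1
      exact hp2 ((Nat.prime_dvd_prime_iff_eq hp Nat.prime_two).mp (hp.dvd_of_dvd_pow h2))
  · have h3 : m - 4 + 2 * 1 = m - 2 := by omega
    rw [h3, coprime_iff n z _ hn]
    intro p hp hpz hpa
    by_cases hp2 : p = 2
    · subst hp2; omega
    · have h1 := hgen p hp hp2 2 (by omega) (hodd p hp hpz hp2) hpa
      exact hp2 ((Nat.prime_dvd_prime_iff_eq hp Nat.prime_two).mp h1)
  · intro x hx1 hx2 hcop
    rw [coprime_iff n z x hn] at hcop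
    exact hcop 2 Nat.prime_two (by omega) (by omega)

/-! ### Primorials -/

theorem prime_dvd_primorial (k : ℕ) (hk : 1 ≤ k) (p : ℕ) (hp : p.Prime) :
    p ∣ ∏ i ∈ Finset.range k, Nat.nth Nat.Prime i ↔ p ≤ Nat.nth Nat.Prime (k - 1) := by
  rw [hp.prime.dvd_finsetProd_iff]
  constructor
  · rintro ⟨i, hi, hpi⟩
    have h1 : (Nat.nth Nat.Prime i).Prime := Nat.prime_nth_prime i
    rw [(Nat.prime_dvd_prime_iff_eq hp h1).mp hpi]
    apply (Nat.nth_monotone Nat.infinite_setOfPred_prime)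
    have := Finset.mem_range.mp hi
    omega
  · intro h
    refine ⟨Nat.count Nat.Prime p, ?_, ?_⟩
    · rw [Finset.mem_range]
      by_contra hcon
      have h1 : k - 1 < Nat.count Nat.Prime p := by omega
      have h2 := Nat.nth_lt_of_lt_count h1
      omega
    · rw [Nat.nth_count hp]

theorem primorial_ne_zero (k : ℕ) : ∏ i ∈ Finset.range k, Nat.nth Nat.Prime i ≠ 0 :=
  Finset.prod_ne_zero_iff.mpr fun i _ => (Nat.prime_nth_prime i).ne_zero

end Pool.Agent.Lib.MP_45349e_nt
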