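import Mathlib
import Pool.Agent.Lib.MP_45349e_nt.Gap

/-!
# All even numbers up to an Erdős–Rankin bound are gaps between totatives of a primorial
-/

open Finset Filter

namespace Pool.Agent.Lib.MP_45349e_nt

theorem main : ∃ c : ℝ, 0 < c ∧ ∃ K : ℕ, ∀ k : ℕ, K ≤ k →
    ∀ n : ℕ, n = ∏ i ∈ Finset.range k, Nat.nth Nat.Prime i →
    ∀ p : ℝ, p = Nat.nth Nat.Prime (k - 1) →
    ∀ d : ℕ, 0 < d → Even d →
      (d : ℝ) ≤ c * p * Real.log p * Real.log (Real.log (Real.log p)) / (Real.log (Real.log p)) ^ 2 →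
      ∃ a : ℕ, 1 ≤ a ∧ a + d < n ∧ Nat.Coprime a n ∧ Nat.Coprime (a + d) n ∧
        ∀ x : ℕ, a < x → x < a + d → ¬ Nat.Coprime x n := by
  obtain ⟨c, hc, z₀, hcov⟩ := covering_quant
  refine ⟨c, hc, max z₀ 5 + 1, fun k hk n hn p hp d hd0 hdeven hdle => ?_⟩
  have hk1 : z₀ + 1 ≤ k := (Nat.add_le_add_right (le_max_left _ _) 1).trans hk
  have hk5 : 6 ≤ k := (Nat.add_le_add_right (le_max_right z₀ 5) 1).trans hk
  set z := Nat.nth Nat.Prime (k - 1) with hz
  have hzk : k - 1 ≤ z := by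
    rw [hz]
    exact (Nat.nth_strictMono Nat.infinite_setOfPred_prime).le_apply
  have hdvd : ∀ q : ℕ, q.Prime → (q ∣ n ↔ q ≤ z) := by
    intro q hq
    rw [hn]
    exact prime_dvd_primorial k (by omega) q hq
  have hn0 : n ≠ 0 := by rw [hn]; exact primorial_ne_zero k
  obtain ⟨D, hD⟩ := hdeven
  have hdD : d = 2 * D := by omega
  subst hdD
  rcases Nat.lt_or_ge D 2 with h2 | h2
  · -- the gap 2
    have hD1 : D = 1 := by omega
    subst hD1
    have h2n : 2 ∣ n := (hdvd 2 Nat.prime_two).mpr (by omega)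
    obtain ⟨m, hm⟩ := h2n
    have hprod : n = 2 * ∏ i ∈ Finset.range (k - 1), Nat.nth Nat.Prime (i + 1) := by
      rw [hn]
      obtain ⟨s, rfl⟩ : ∃ s, k = s + 1 := ⟨k - 1, by omega⟩
      rw [Finset.prod_range_succ', Nat.add_sub_cancel, Nat.nth_prime_zero_eq_two, mul_comm]
    have hmeq : m = ∏ i ∈ Finset.range (k - 1), Nat.nth Nat.Prime (i + 1) := by omega
    have hmodd : m % 2 = 1 := by
      rw [hmeq, ← Nat.odd_iff]
      refine Finset.prod_induction _ Odd (fun _ _ => Odd.mul) odd_one ?_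
      intro i _
      refine (Nat.prime_nth_prime (i + 1)).odd_of_ne_two ?_
      intro h
      have h3 : Nat.nth Nat.Prime 0 < Nat.nth Nat.Prime (i + 1) :=
        Nat.nth_strictMono Nat.infinite_setOfPred_prime (by omega)
      rw [Nat.nth_prime_zero_eq_two, h] at h3
      exact lt_irrefl _ h3
    have hm5 : 5 ≤ m := by
      have h5 : 5 ∣ n := (hdvd 5 Nat.prime_five).mpr (by omega)
      have h5m : 5 ∣ m := by
        rw [hm] at h5
        exact (Nat.Coprime.dvd_mul_left (by norm_num)).mp h5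
      exact Nat.le_of_dvd (by omega) h5m
    exact gap_two n m z (by omega) hm hmodd hm5 hdvd
  · have hDle : (D : ℝ) ≤ c * z * Real.log z * Real.log (Real.log (Real.log z)) /
        (Real.log (Real.log z)) ^ 2 := by
      rw [hp] at hdle
      refine le_trans ?_ hdle
      push_cast
      have : (0 : ℝ) ≤ D := Nat.cast_nonneg _
      linarith
    obtain ⟨cl, hok, hcl⟩ := hcov z (by omega) D hDle
    exact exists_gap n z D (by omega) hn0 hdvd h2 cl hok hcl

end Pool.Agent.Lib.MP_45349e_nt
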